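import Pool.Agent.H441R3.BV.Fin

/-!
A theorem of Bombieri-Vinogradov type with a doubly logarithmic loss: for moduli up to `D ≤ √x`
the sum of the errors is `≪ x / (log x)^U + D √x (log log x)^2`.
-/

set_option autoImplicit false

namespace Pool.Agent.Results.MP_00e23e_nt.LogLogLoss

/-- `π(y; d, l)`: the number of primes `p ≤ y` with `p ≡ l (mod d)` -/
noncomputable def primesAP (y : ℝ) (d l : ℕ) : ℕ :=
  ((Finset.Icc 1 ⌊y⌋₊).filter (fun p => p.Prime ∧ p ≡ l [MOD d])).card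

/-- `E(y; d, l) = π(y; d, l) - li(y) / φ(d)`, where `li(y)` is the integral of `1 / log t`
over `[2, y]` -/
noncomputable def E (y : ℝ) (d l : ℕ) : ℝ :=
  (primesAP y d l : ℝ) - (∫ t in (2 : ℝ)..y, 1 / Real.log t) / (Nat.totient d : ℝ)

theorem result (U : ℝ) : ∃ C : ℝ, ∀ x : ℝ, 3 ≤ x → ∀ D : ℝ, 0 ≤ D → D ≤ Real.sqrt x →
    ∀ y : ℕ → ℝ, (∀ d, 2 ≤ y d ∧ y d ≤ x) →
    ∀ l : ℕ → ℕ, (∀ d, 1 ≤ d → (l d).Coprime d) →
    ∑ d ∈ Finset.Icc 1 ⌊D⌋₊, |E (y d) d (l d)| ≤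
      C * (x / Real.log x ^ U + D * Real.sqrt x * Real.log (Real.log x) ^ 2) := by
  obtain ⟨C0, hC0, x0, h⟩ := Pool.Agent.H441R3.BV.main_nat ⌈U⌉₊
  set V := ⌈U⌉₊ with hV
  refine ⟨C0 * 2 ^ V + 3 * (x0 + 1) * (Real.log (x0 + 3) + 1) ^ V, ?_⟩
  intro x hx D hD0 hD y hy l hl
  have hx0 : (0:ℝ) < x := by linarith
  have hlog3 : (1:ℝ) ≤ Real.log 3 := by
    have := Pool.Agent.H441R3.BV.one_le_log (l := 3) le_rfl
    exact_mod_cast this
  have hlx : 1 ≤ Real.log x := hlog3.trans (Real.log_le_log (by norm_num) hx)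
  have hlx0 : 0 < Real.log x := by linarith
  have hUV : Real.log x ^ U ≤ Real.log x ^ V := by
    rw [← Real.rpow_natCast]
    exact Real.rpow_le_rpow_of_exponent_le hlx (Nat.le_ceil U)
  have hlU : 0 < Real.log x ^ U := Real.rpow_pos_of_pos hlx0 U
  have hxx : x / Real.log x ^ V ≤ x / Real.log x ^ U :=
    div_le_div_of_nonneg_left hx0.le hlU hUV
  have hw : 0 ≤ D * Real.sqrt x * Real.log (Real.log x) ^ 2 := by positivity
  have hu : 0 ≤ x / Real.log x ^ U := by positivity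
  have hfl : (⌊D⌋₊ : ℝ) ≤ D := Nat.floor_le hD0
  have hDx : D ^ 2 ≤ x := by
    have := Real.sq_sqrt hx0.le
    nlinarith [Real.sqrt_nonneg x]
  have hlx3 : 0 ≤ Real.log ((x0:ℝ) + 3) := Real.log_nonneg (by
    have : (0:ℝ) ≤ x0 := Nat.cast_nonneg _
    linarith)
  have hK : 0 ≤ 3 * ((x0:ℝ) + 1) * (Real.log (x0 + 3) + 1) ^ V := by positivity
  have hcongr : ∑ d ∈ Finset.Icc 1 ⌊D⌋₊, |E (y d) d (l d)| =
      ∑ d ∈ Finset.Icc 1 ⌊D⌋₊, Pool.Agent.H300R2.WEH.err (y d) d (l d) := rfl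
  rw [hcongr]
  rcases le_or_gt x0 ⌊x⌋₊ with hN | hN
  · have h3N : 3 ≤ ⌊x⌋₊ := Nat.le_floor (by exact_mod_cast hx)
    have h1 := h ⌊x⌋₊ hN ⌊D⌋₊ (Nat.le_floor (by
      push_cast
      calc (⌊D⌋₊ : ℝ) ^ 2 ≤ D ^ 2 := by gcongr
        _ ≤ x := hDx)) y (fun d => ⟨(hy d).1, Nat.floor_le_floor (hy d).2⟩) l
      (fun d hd => hl d (Finset.mem_Icc.1 hd).1)
    refine h1.trans ?_
    have hNx : (⌊x⌋₊ : ℝ) ≤ x := Nat.floor_le hx0.le
    have h3N' : (3:ℝ) ≤ ⌊x⌋₊ := by exact_mod_cast h3N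
    have hxN : x < ⌊x⌋₊ + 1 := Nat.lt_floor_add_one x
    have hN0 : (0:ℝ) < ⌊x⌋₊ := by linarith
    have hlN : 1 ≤ Real.log ⌊x⌋₊ := Pool.Agent.H441R3.BV.one_le_log h3N
    have hlN2 : Real.log x ≤ 2 * Real.log ⌊x⌋₊ := by
      have h2 : x ≤ (⌊x⌋₊ : ℝ) ^ 2 := by nlinarith
      have h3 := Real.log_le_log hx0 h2
      rw [Real.log_pow] at h3
      push_cast at h3
      exact h3
    have a1 : (⌊x⌋₊ : ℝ) / Real.log ⌊x⌋₊ ^ V ≤ 2 ^ V * (x / Real.log x ^ U) := by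
      have b1 : Real.log x ^ V ≤ 2 ^ V * Real.log ⌊x⌋₊ ^ V := by
        rw [← mul_pow]
        exact pow_le_pow_left₀ hlx0.le hlN2 V
      calc (⌊x⌋₊ : ℝ) / Real.log ⌊x⌋₊ ^ V ≤ 2 ^ V * (x / Real.log x ^ V) := by
            rw [mul_div_assoc', div_le_div_iff₀ (by positivity) (by positivity)]
            calc (⌊x⌋₊ : ℝ) * Real.log x ^ V ≤ x * (2 ^ V * Real.log ⌊x⌋₊ ^ V) := by gcongr
              _ = 2 ^ V * x * Real.log ⌊x⌋₊ ^ V := by ring
        _ ≤ 2 ^ V * (x / Real.log x ^ U) := by gcongr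
    have a2 : (⌊D⌋₊ : ℝ) * Real.sqrt ⌊x⌋₊ * Real.log (Real.log ⌊x⌋₊) ^ 2 ≤
        D * Real.sqrt x * Real.log (Real.log x) ^ 2 := by
      have b2 : Real.log ⌊x⌋₊ ≤ Real.log x := Real.log_le_log hN0 hNx
      have b3 : 0 ≤ Real.log (Real.log ⌊x⌋₊) := Real.log_nonneg hlN
      have b4 : Real.log (Real.log ⌊x⌋₊) ≤ Real.log (Real.log x) :=
        Real.log_le_log (by linarith) b2
      gcongr
    have h2V : (1:ℝ) ≤ 2 ^ V := one_le_pow₀ (by norm_num)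
    calc C0 * ((⌊x⌋₊ : ℝ) / Real.log ⌊x⌋₊ ^ V +
          (⌊D⌋₊ : ℝ) * Real.sqrt ⌊x⌋₊ * Real.log (Real.log ⌊x⌋₊) ^ 2)
        ≤ C0 * (2 ^ V * (x / Real.log x ^ U) +
          2 ^ V * (D * Real.sqrt x * Real.log (Real.log x) ^ 2)) := by
          apply mul_le_mul_of_nonneg_left _ hC0
          nlinarith
      _ = C0 * 2 ^ V * (x / Real.log x ^ U + D * Real.sqrt x * Real.log (Real.log x) ^ 2) := by
          ring
      _ ≤ _ := by
          apply mul_le_mul_of_nonneg_right _ (by positivity)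
          linarith
  · have hxN : x < ⌊x⌋₊ + 1 := Nat.lt_floor_add_one x
    have hN' : (⌊x⌋₊ : ℝ) + 1 ≤ x0 := by exact_mod_cast hN
    have hxx0 : x ≤ x0 + 1 := by linarith
    have b1 : ∑ d ∈ Finset.Icc 1 ⌊D⌋₊, Pool.Agent.H300R2.WEH.err (y d) d (l d) ≤
        ∑ _d ∈ Finset.Icc 1 ⌊D⌋₊, 3 * x := by
      apply Finset.sum_le_sum
      intro d hd
      have := Pool.Agent.H441R3.BV.err_triv (y d) (hy d).1 d (l d) (Finset.mem_Icc.1 hd).1
      have := (hy d).2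
      linarith
    refine b1.trans ?_
    rw [Finset.sum_const, Nat.card_Icc, Nat.add_sub_cancel, nsmul_eq_mul]
    have hDx' : D ≤ x := by
      have h1 : Real.sqrt x ≤ x := by
        rw [Real.sqrt_le_left hx0.le]
        nlinarith
      linarith
    have b2 : Real.log x ^ U ≤ (Real.log (x0 + 3) + 1) ^ V := by
      refine hUV.trans ?_
      apply pow_le_pow_left₀ hlx0.le
      have : Real.log x ≤ Real.log (x0 + 3) := Real.log_le_log hx0 (by linarith)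
      linarith
    have b3 : (⌊D⌋₊ : ℝ) * (3 * x) ≤
        3 * (x0 + 1) * (Real.log (x0 + 3) + 1) ^ V * (x / Real.log x ^ U) := by
      rw [mul_div_assoc', le_div_iff₀ hlU]
      calc (⌊D⌋₊ : ℝ) * (3 * x) * Real.log x ^ U
          ≤ (x0 + 1) * (3 * x) * (Real.log (x0 + 3) + 1) ^ V := by
            gcongr
            linarith
        _ = 3 * (x0 + 1) * (Real.log (x0 + 3) + 1) ^ V * x := by ring
    refine b3.trans ?_
    have z1 : 0 ≤ C0 * 2 ^ V * (x / Real.log x ^ U + D * Real.sqrt x * Real.log (Real.log x) ^ 2) :=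
      by positivity
    have z2 : 0 ≤ 3 * ((x0:ℝ) + 1) * (Real.log (x0 + 3) + 1) ^ V *
      (D * Real.sqrt x * Real.log (Real.log x) ^ 2) := by positivity
    calc 3 * ((x0:ℝ) + 1) * (Real.log (x0 + 3) + 1) ^ V * (x / Real.log x ^ U)
        ≤ 3 * ((x0:ℝ) + 1) * (Real.log (x0 + 3) + 1) ^ V * (x / Real.log x ^ U) +
          C0 * 2 ^ V * (x / Real.log x ^ U + D * Real.sqrt x * Real.log (Real.log x) ^ 2) +
          3 * ((x0:ℝ) + 1) * (Real.log (x0 + 3) + 1) ^ V *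
            (D * Real.sqrt x * Real.log (Real.log x) ^ 2) := by linarith
      _ = _ := by ring

end Pool.Agent.Results.MP_00e23e_nt.LogLogLoss
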